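import Pool.Agent.SXG.Defs

/-! Project SXG, module SXG-Chart: uniqueness of the charts of an axis, charts of conjugates, and the
chart of the axis of `x` from the axis of `x * x` (isometries of the line which commute with a
translation are translations). -/

namespace SXG

open SXP

variable {V G : Type*} [Group G] [MulAction G V] {d : V → V → ℕ}

private theorem isoZ {f : ℤ → ℤ} (hf : ∀ i j, |f i - f j| = |i - j|) {t : ℤ} (ht : 1 ≤ t)
    (hs : ∀ n, f (n + t) = f n + t) (n : ℤ) : f n = n + f 0 := by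
  have h1 : ∀ j : ℕ, f ((j : ℤ) * t) = f 0 + j * t := by
    intro j
    induction j with
    | zero => simp
    | succ j ih =>
      have e : ((j + 1 : ℕ) : ℤ) * t = (j : ℤ) * t + t := by push_cast; ring
      rw [e, hs, ih]
      ring
  have h2 := h1 (n.natAbs + (f n - f 0).natAbs + 1)
  have h3 := hf (((n.natAbs + (f n - f 0).natAbs + 1 : ℕ) : ℤ) * t) n
  rw [h2] at h3
  have h4 : ((n.natAbs + (f n - f 0).natAbs + 1 : ℕ) : ℤ) ≤
      ((n.natAbs + (f n - f 0).natAbs + 1 : ℕ) : ℤ) * t := by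
    have h5 : (0 : ℤ) ≤ ((n.natAbs + (f n - f 0).natAbs + 1 : ℕ) : ℤ) := Int.natCast_nonneg _
    nlinarith
  generalize ((n.natAbs + (f n - f 0).natAbs + 1 : ℕ) : ℤ) * t = T at h3 h4
  push_cast at h4
  have h6 : n ≤ |n| := le_abs_self n
  have h7 : f n - f 0 ≤ |f n - f 0| := le_abs_self _
  have h8 : (0 : ℤ) ≤ |n| := abs_nonneg n
  have h9 : (0 : ℤ) ≤ |f n - f 0| := abs_nonneg _
  rw [abs_of_nonneg (show 0 ≤ f 0 + T - f n by linarith), abs_of_nonneg (show 0 ≤ T - n by linarith)]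
    at h3
  linarith

private theorem line_inj (h : TM d) {c : ℤ → V} (hc : IsLine d c) {i j : ℤ} (hij : c i = c j) :
    i = j := by
  have h1 := hc i j
  rw [(h.zero _ _).2 hij] at h1
  have h2 : |i - j| = 0 := h1.symm
  have h3 := abs_eq_zero.1 h2
  omega

theorem chart_uniq (h : TM d) {x : G} {c c' : ℤ → V} {τ τ' : ℕ} (hc : Chart d x c τ)
    (hc' : Chart d x c' τ') : τ = τ' ∧ ∃ k : ℤ, ∀ n, c' n = c (n + k) := by
  have hex : ∀ n, ∃ m, c' n = c m := fun n => (hc.rng _).1 ((hc'.rng _).2 ⟨n, rfl⟩)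
  choose f hf using hex
  have hiso : ∀ i j, |f i - f j| = |i - j| := fun i j => by
    rw [← hc.line, ← hc'.line, hf, hf]
  have hs : ∀ n, f (n + τ') = f n + τ := fun n => by
    refine line_inj h hc.line ?_
    rw [← hf, ← hc'.tr, hf, hc.tr]
  have hτ : τ = τ' := by
    have h1 := hiso (0 + τ') 0
    rw [hs] at h1
    have h2 : f 0 + (τ : ℤ) - f 0 = τ := by ring
    have h3 : (0 : ℤ) + τ' - 0 = τ' := by ring
    rw [h2, h3, Nat.abs_cast, Nat.abs_cast] at h1
    exact_mod_cast h1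
  subst hτ
  refine ⟨rfl, f 0, fun n => ?_⟩
  have ht : (1 : ℤ) ≤ (τ : ℤ) := by exact_mod_cast hc.pos
  rw [hf, isoZ hiso ht hs n]

theorem chart_conj (hiso : ∀ (g : G) (x y : V), d (g • x) (g • y) = d x y) {x : G} {c : ℤ → V}
    {τ : ℕ} (hc : Chart d x c τ) (g : G) : Chart d (g * x * g⁻¹) (fun n => g • c n) τ where
  line := fun i j => by
    rw [hiso]
    exact hc.line i j
  tr := fun n => by
    rw [← hc.tr, smul_smul, smul_smul]
    congr 1
    group
  rng := fun v => by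
    have h1 := ax_conj hiso x g (g⁻¹ • v)
    rw [smul_inv_smul] at h1
    rw [h1, hc.rng]
    exact exists_congr fun n => inv_smul_eq_iff
  pos := hc.pos

theorem chart_sq (h : TM d) (hiso : ∀ (g : G) (x y : V), d (g • x) (g • y) = d x y)
    [Nonempty V] {x : G} (h2 : ∀ v : V, 2 ≤ d v (x • x • v)) :
    ∃ (c : ℤ → V) (τ : ℕ), Chart d x c τ := by
  obtain ⟨c, τ₂, hc, htr, hax, -⟩ := axis h hiso (x * x) (fun v => by rw [mul_smul]; exact h2 v)
  have hτ₂ : 2 ≤ τ₂ := by
    have h3 := h2 (c 0)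
    rw [← mul_smul, htr] at h3
    have h4 := hc 0 (0 + τ₂)
    rw [zero_add, zero_sub, abs_neg, Nat.abs_cast] at h4
    rw [zero_add] at h3
    omega
  have hex : ∀ n, ∃ m, x • c n = c m := fun n =>
    (hax _).1 (ax_smul hiso (g := x * x) (k := x) (mul_assoc x x x).symm ((hax _).2 ⟨n, rfl⟩))
  choose f hf using hex
  have hfi : ∀ i j, |f i - f j| = |i - j| := fun i j => by
    rw [← hc, ← hc, ← hf, ← hf, hiso]
  have hs : ∀ n, f (n + τ₂) = f n + τ₂ := fun n => by
    refine line_inj h hc ?_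
    rw [← hf, ← htr, ← htr, ← hf, smul_smul, smul_smul, mul_assoc]
  have ht : (1 : ℤ) ≤ (τ₂ : ℤ) := by exact_mod_cast (by omega : 1 ≤ τ₂)
  have hk := isoZ hfi ht hs
  have h2k : 2 * f 0 = τ₂ := by
    have h5 : c (0 + τ₂) = c (f (f 0)) := by rw [← htr, mul_smul, hf, hf]
    have h6 := line_inj h hc h5
    rw [hk (f 0)] at h6
    omega
  obtain ⟨τ, hτ⟩ := Int.eq_ofNat_of_zero_le (show (0 : ℤ) ≤ f 0 by omega)
  have hτ1 : 1 ≤ τ := by omega
  have htx : ∀ n : ℤ, x • c n = c (n + τ) := fun n => by rw [hf, hk n, hτ]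
  have hform : ∀ (v : V) (i : ℤ), IsIdx d c v i → d v (x • v) = 2 * d v (c i) + τ := by
    intro v i hi
    have h7 := idx_pow hiso htx hi 1
    rw [zpow_one, one_mul] at h7
    have h8 := idx2 h hc hi h7.1 (by omega)
    rw [h7.2] at h8
    have h9 : |i - (i + (τ : ℤ))| = τ := by
      rw [show i - (i + (τ : ℤ)) = -(τ : ℤ) by ring, abs_neg, Nat.abs_cast]
    rw [h9] at h8
    omega
  have hself : ∀ n, d (c n) (x • c n) = τ := fun n => by
    rw [hform (c n) n (idx_self h hc n), (h.zero _ _).2 rfl]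
    omega
  refine ⟨c, τ, hc, htx, fun v => ⟨fun hv => ?_, ?_⟩, hτ1⟩
  · obtain ⟨i, hi⟩ := idx_exists h hc v
    have h10 := hv (c 0)
    rw [hself, hform v i hi] at h10
    exact ⟨i, (h.zero _ _).1 (by omega)⟩
  · rintro ⟨n, rfl⟩ u
    obtain ⟨i, hi⟩ := idx_exists h hc u
    rw [hself, hform u i hi]
    omega

end SXG
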