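import Pool.Agent.SXP.XFree

/-! Project SXG: walls crossed by an axis (copies of private lemmas of SXP/XFree). -/

namespace SXG

open SXP

variable {X W G : Type*} [Group G] [MulAction G X] [MulAction G W] {sep : W → X → X → Prop}

theorem rd_iso (hS : WS sep)
    (heq : ∀ (g : G) w x y, sep (g • w) (g • x) (g • y) ↔ sep w x y) [MulAction G (Reg hS)]
    (hsm : ∀ (g : G) (x : X), g • reg hS x = reg hS (g • x)) (g : G) (u v : Reg hS) :
    rd hS (g • u) (g • v) = rd hS u v := by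
  obtain ⟨x, rfl⟩ := reg_surj hS u
  obtain ⟨y, rfl⟩ := reg_surj hS v
  rw [hsm, hsm, rd_reg, rd_reg]
  exact ds_smul hS heq g x y

theorem ax_cross_lt (hS : WS sep)
    (heq : ∀ (g : G) w x y, sep (g • w) (g • x) (g • y) ↔ sep w x y) [MulAction G (Reg hS)]
    (hsm : ∀ (g : G) (x : X), g • reg hS x = reg hS (g • x)) {g : G} {c : ℤ → Reg hS} {τ : ℕ}
    (hτ : 1 ≤ τ) (hc : IsLine (rd hS) c) (htr : ∀ n : ℤ, g • c n = c (n + τ)) {i j : ℤ}
    (hij : i < j) {p q : X} (hp : reg hS p = c i) (hq : reg hS q = c j) {w : W}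
    (hw : sep w p q) : Cross sep g w := by
  intro r
  obtain ⟨m, hm⟩ := idx_exists (reg_tm hS) hc (reg hS r)
  refine ⟨(|m - i| + |m - j| + 1).toNat, fun k hk => ?_⟩
  have hk' : |m - i| + |m - j| + 1 ≤ (k : ℤ) := by
    have h0 := Int.self_le_toNat (|m - i| + |m - j| + 1)
    omega
  have hkτ : (k : ℤ) ≤ k * τ := by
    have h1 : (1 : ℤ) ≤ τ := by exact_mod_cast hτ
    have h2 : (0 : ℤ) ≤ k := by positivity
    nlinarith
  have a1 := neg_abs_le (m - i)
  have a2 := le_abs_self (m - i)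
  have a3 := neg_abs_le (m - j)
  have a4 := le_abs_self (m - j)
  have a5 := abs_nonneg (m - i)
  have a6 := abs_nonneg (m - j)
  obtain ⟨hm1, hm2⟩ := idx_pow (rd_iso hS heq hsm) htr hm (-(k : ℤ))
  obtain ⟨hp1, hp2⟩ := idx_pow (rd_iso hS heq hsm) htr hm (k : ℤ)
  have hne : m + -(k : ℤ) * τ ≠ m + (k : ℤ) * τ := by
    intro h
    have : (k : ℤ) * τ = 0 := by linarith
    omega
  have e1 := idx2 (reg_tm hS) hc hm1 hp1 hne
  have e2 := hm1 i
  have e3 := hm1 j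
  have e4 := hp1 j
  have e5 := hc i j
  rw [hm2] at e2 e3
  rw [hp2] at e4
  rw [hm2, hp2] at e1
  rw [hsm] at e2 e3
  rw [hsm, hsm] at e1
  rw [hsm] at e4
  rw [← hp, ← hq, rd_reg] at e5
  rw [← hp, rd_reg] at e2
  rw [← hq, rd_reg] at e3
  rw [← hq, rd_reg] at e4
  rw [rd_reg] at e1
  have b1 : |i - (m + -(k : ℤ) * τ)| = i - (m + -(k : ℤ) * τ) := abs_of_nonneg (by linarith)
  have b2 : |j - (m + -(k : ℤ) * τ)| = j - (m + -(k : ℤ) * τ) := abs_of_nonneg (by linarith)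
  have b3 : |j - (m + (k : ℤ) * τ)| = m + (k : ℤ) * τ - j := by
    rw [abs_of_nonpos (by linarith)]
    ring
  have b4 : |i - j| = j - i := by
    rw [abs_of_neg (by linarith)]
    ring
  have b5 : |m + -(k : ℤ) * τ - (m + (k : ℤ) * τ)| = 2 * (k * τ) := by
    rw [abs_of_nonpos (by linarith)]
    ring
  rw [b1] at e2
  rw [b2] at e3
  rw [b3] at e4
  rw [b4] at e5
  rw [b5] at e1
  have f1 : ds sep (g ^ (-(k : ℤ)) • r) p + ds sep p q = ds sep (g ^ (-(k : ℤ)) • r) q := by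
    have : (ds sep (g ^ (-(k : ℤ)) • r) p : ℤ) + ds sep p q =
        ds sep (g ^ (-(k : ℤ)) • r) q := by
      rw [e2, e3, e5]; ring
    exact_mod_cast this
  have hsym : ds sep (g ^ (k : ℤ) • r) q = ds sep q (g ^ (k : ℤ) • r) := by
    unfold ds
    congr 1
    ext w
    exact hS.sym w _ _
  rw [hsym] at e4
  have f2 : ds sep (g ^ (-(k : ℤ)) • r) q + ds sep q (g ^ (k : ℤ) • r) =
      ds sep (g ^ (-(k : ℤ)) • r) (g ^ (k : ℤ) • r) := by
    have : (ds sep (g ^ (-(k : ℤ)) • r) q : ℤ) + ds sep q (g ^ (k : ℤ) • r) =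
        ds sep (g ^ (-(k : ℤ)) • r) (g ^ (k : ℤ) • r) := by
      rw [e1, e3, e4]; ring
    exact_mod_cast this
  exact (sep_btw hS f2 w).2 (Or.inl ((sep_btw hS f1 w).2 (Or.inr hw)))

theorem ax_cross (hS : WS sep)
    (heq : ∀ (g : G) w x y, sep (g • w) (g • x) (g • y) ↔ sep w x y) [MulAction G (Reg hS)]
    (hsm : ∀ (g : G) (x : X), g • reg hS x = reg hS (g • x)) {g : G} {c : ℤ → Reg hS} {τ : ℕ}
    (hτ : 1 ≤ τ) (hc : IsLine (rd hS) c) (htr : ∀ n : ℤ, g • c n = c (n + τ)) {i j : ℤ}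
    {p q : X} (hp : reg hS p = c i) (hq : reg hS q = c j) {w : W}
    (hw : sep w p q) : Cross sep g w := by
  rcases lt_trichotomy i j with h | h | h
  · exact ax_cross_lt hS heq hsm hτ hc htr h hp hq hw
  · exfalso
    rw [← h, ← hp] at hq
    exact (reg_eq hS).1 hq.symm w hw
  · exact ax_cross_lt hS heq hsm hτ hc htr h hq hp ((hS.sym w p q).1 hw)


end SXG
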