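import Pool.Agent.SXP.TConj
import Pool.Agent.SXP.TGate
import Pool.Agent.SXQ.Wind

/-! Project SXG, definitions: counting the corners of the axes of a conjugacy class along
geodesics of a tree. -/

namespace SXG

open SXP

variable {V G : Type*} [Group G] [MulAction G V]

/-- A chart of the axis of `x`: the axis is the line `c`, and `x` translates it by `τ ≥ 1`. -/
structure Chart (d : V → V → ℕ) (x : G) (c : ℤ → V) (τ : ℕ) : Prop where
  line : IsLine d c
  tr : ∀ n : ℤ, x • c n = c (n + τ)
  rng : ∀ v, v ∈ Ax d x ↔ ∃ n, v = c n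
  pos : 1 ≤ τ

/-- `G` acts by isometries on the tree `(V, d)`, `R` is a conjugation invariant set of translations,
and the axes of two different elements of `R` overlap in at most one edge. -/
structure CG (d : V → V → ℕ) (R : Set G) : Prop where
  tm : TM d
  iso : ∀ (g : G) (x y : V), d (g • x) (g • y) = d x y
  conj : ∀ g : G, ∀ x ∈ R, g * x * g⁻¹ ∈ R
  ch : ∀ x ∈ R, ∃ (c : ℤ → V) (τ : ℕ), Chart d x c τ
  ov : ∀ x ∈ R, ∀ y ∈ R, x ≠ y → ∀ a b, a ∈ Ax d x → a ∈ Ax d y → b ∈ Ax d x → b ∈ Ax d y →
    d a b ≤ 1

/-- Signed number of interior vertices of a segment of signed length `t`. -/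
def ff (t : ℤ) : ℤ := if 1 ≤ t then t - 1 else if t ≤ -1 then t + 1 else 0

variable {d : V → V → ℕ} {R : Set G}

/-- A chosen chart. -/
noncomputable def cht (hC : CG d R) (x : R) : ℤ → V := (hC.ch x.1 x.2).choose

/-- The translation length of `x`. -/
noncomputable def tau (hC : CG d R) (x : R) : ℕ := (hC.ch x.1 x.2).choose_spec.choose

theorem cht_spec (hC : CG d R) (x : R) : Chart d x.1 (cht hC x) (tau hC x) :=
  (hC.ch x.1 x.2).choose_spec.choose_spec

/-- The index of the projection of `v` to the axis of `x`. -/
noncomputable def ix (hC : CG d R) (x : R) (v : V) : ℤ :=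
  (idx_exists hC.tm (cht_spec hC x).line v).choose

theorem ix_spec (hC : CG d R) (x : R) (v : V) : IsIdx d (cht hC x) v (ix hC x v) :=
  (idx_exists hC.tm (cht_spec hC x).line v).choose_spec

/-- Signed length (in the direction of the translation `x`) of the projection of the geodesic
from `u` to `v` to the axis of `x`. -/
noncomputable def del (hC : CG d R) (x : R) (u v : V) : ℤ := ix hC x v - ix hC x u

/-- Signed number of corners of the axes of the elements of `R` on the geodesic from `u` to `v`. -/
noncomputable def cc (hC : CG d R) (u v : V) : ℤ := ∑ᶠ x : R, ff (del hC x u v)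

end SXG
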