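import Pool.Agent.SXG.Chart

/-! Project SXG, module SXG-Del: properties of the signed projection length `del`.

* `del_chart`: by `chart_uniq` `c n = cht (n + k)` (apply it to `cht_spec` and `hc`), so
  `IsIdx d c u i` means `IsIdx d (cht) u (i + k)`; `idx_uniq` with `ix_spec`.
* `del_add`, `del_neg`, `del_self`: `ring`/`omega` after unfolding.
* `del_conj`: for `g x g⁻¹` use the chart `fun n => g • c n` of `chart_conj`, `c := cht x`; the index of
  `g • u` with respect to it is the index of `u` with respect to `c` (`hC.iso`); `del_chart`.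
* `del_axis`: `u = c i` in a chart, `x ^ n • u = c (i + n τ)` (`line_pow`), `idx_self`.
* `btw_proj`: `idx2` for the chart `cht x` with `i = ix u ≠ j = ix v`: `d u v = d u (c i) + |i - j| +
  d (c j) v`; each `c k` with `k` between `i` and `j` is between `u` and `v`:
  `d u (c k) = d u (c i) + |k - i|`, `d (c k) v = d v (c j) + |k - j|` (`ix_spec`). -/

namespace SXG

open SXP

variable {V G : Type*} [Group G] [MulAction G V] {d : V → V → ℕ} {R : Set G}

theorem del_chart (hC : CG d R) (x : R) {c : ℤ → V} {τ : ℕ} (hc : Chart d x.1 c τ) {u v : V}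
    {i j : ℤ} (hi : IsIdx d c u i) (hj : IsIdx d c v j) : del hC x u v = j - i := by
  obtain ⟨-, k, hk⟩ := chart_uniq hC.tm (cht_spec hC x) hc
  have key : ∀ {w : V} {l : ℤ}, IsIdx d c w l → ix hC x w = l + k := by
    intro w l hl
    refine idx_uniq (ix_spec hC x w) (fun n => ?_)
    have h1 := hl (n - k)
    rw [hk, hk, show n - k + k = n by ring, show n - k - l = n - (l + k) by ring] at h1
    exact h1
  unfold del
  rw [key hi, key hj]
  ring

theorem del_add (hC : CG d R) (x : R) (u v w : V) :
    del hC x u v + del hC x v w = del hC x u w := by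
  unfold del
  ring

theorem del_neg (hC : CG d R) (x : R) (u v : V) : del hC x v u = -del hC x u v := by
  unfold del
  ring

theorem del_conj (hC : CG d R) (x : R) (g : G) (u v : V) :
    del hC ⟨g * x.1 * g⁻¹, hC.conj g x.1 x.2⟩ (g • u) (g • v) = del hC x u v := by
  have h := chart_conj hC.iso (cht_spec hC x) g
  have key : ∀ w : V, IsIdx d (fun n => g • cht hC x n) (g • w) (ix hC x w) := by
    intro w n
    show (d (g • w) (g • cht hC x n) : ℤ) = d (g • w) (g • cht hC x (ix hC x w)) + |n - ix hC x w|
    rw [hC.iso, hC.iso]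
    exact ix_spec hC x w n
  exact del_chart hC ⟨g * x.1 * g⁻¹, hC.conj g x.1 x.2⟩ h (key u) (key v)

theorem del_axis (hC : CG d R) (x : R) {u : V} (hu : u ∈ Ax d x.1) (n : ℤ) :
    del hC x u (x.1 ^ n • u) = n * tau hC x := by
  have hc := cht_spec hC x
  obtain ⟨i, rfl⟩ := (hc.rng u).1 hu
  have h1 : ix hC x (cht hC x i) = i := idx_uniq (ix_spec hC x _) (idx_self hC.tm hc.line i)
  have h2 : x.1 ^ n • cht hC x i = cht hC x (i + n * tau hC x) := line_pow hc.tr n i
  have h3 : ix hC x (cht hC x (i + n * tau hC x)) = i + n * tau hC x :=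
    idx_uniq (ix_spec hC x _) (idx_self hC.tm hc.line _)
  unfold del
  rw [h2, h3, h1]
  ring

theorem btw_proj (hC : CG d R) (x : R) {u v : V} {k : ℤ} (hne : ix hC x u ≠ ix hC x v)
    (h1 : min (ix hC x u) (ix hC x v) ≤ k) (h2 : k ≤ max (ix hC x u) (ix hC x v)) :
    Btw d u (cht hC x k) v := by
  have hc := cht_spec hC x
  have h3 := ix_spec hC x u k
  have h4 := ix_spec hC x v k
  have h5 := idx2 hC.tm hc.line (ix_spec hC x u) (ix_spec hC x v) hne
  have h6 : |k - ix hC x u| + |k - ix hC x v| = |ix hC x u - ix hC x v| := by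
    rcases lt_or_gt_of_ne hne with h | h
    · rw [min_eq_left h.le] at h1
      rw [max_eq_right h.le] at h2
      rw [abs_of_nonneg (by omega), abs_of_nonpos (by omega), abs_of_neg (by omega)]
      ring
    · rw [min_eq_right h.le] at h1
      rw [max_eq_left h.le] at h2
      rw [abs_of_nonpos (by omega), abs_of_nonneg (by omega), abs_of_pos (by omega)]
      ring
  show _ + _ = _
  rw [hC.tm.symm (cht hC x k) v]
  have h7 : ((d u (cht hC x k) + d v (cht hC x k) : ℕ) : ℤ) = (d u v : ℤ) := by
    push_cast
    linarith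
  exact_mod_cast h7

end SXG
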