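import Pool.Agent.SXG.Defs

/-! Project SXG, module SXG-FF: elementary facts on `ff` (unfold, split_ifs, omega). -/

namespace SXG

theorem ff_neg (t : ℤ) : ff (-t) = -ff t := by
  unfold ff
  split_ifs <;> omega

theorem ff_small {t : ℤ} (h : |t| ≤ 1) : ff t = 0 := by
  rw [abs_le] at h
  unfold ff
  split_ifs <;> omega

theorem ff_add_abs (a b : ℤ) : |ff a + ff b - ff (a + b)| ≤ 1 := by
  rw [abs_le]
  unfold ff
  split_ifs <;> omega

theorem ff_add_zero {a b : ℤ} (h : a = 0 ∨ b = 0 ∨ a + b = 0) : ff a + ff b - ff (a + b) = 0 := by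
  unfold ff
  split_ifs <;> omega

theorem ff_add_pos {a b : ℤ} (ha : 0 < a) (hb : 0 < b) : ff a + ff b - ff (a + b) = -1 := by
  unfold ff
  split_ifs <;> omega

end SXG
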