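import Pool.Agent.SXG.Sum

/-! Project SXG, module SXG-Far: exact values of `cc` for a base vertex far out on the axis.

Two vertices of the axis of `z` have projections to the axis of `x ≠ z` of index differing by at most one
(`far_small`); so `cc u (z ^ n • u) = n τ - 1` for `u` on the axis of `z`.  If `h` does not commute with
`z`, the indices of all `h • C n` are within one of each other.  If `u` is on the axis of `z` and the
projection of `h • u` is before `u`, then `u` is between `h • u` and `z ^ n • u` and only `x = z` contributes to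
the defect of `cc` for these three points (`mid`). -/

namespace SXG

open SXP

variable {V G : Type*} [Group G] [MulAction G V] {d : V → V → ℕ} {R : Set G}

private theorem far_conv (hC : CG d R) (z : R) {u v p : V} (hu : u ∈ Ax d z.1)
    (hv : v ∈ Ax d z.1) (hp : Btw d u p v) : p ∈ Ax d z.1 := by
  have hs := cht_spec hC z
  obtain ⟨i, rfl⟩ := (hs.rng u).1 hu
  obtain ⟨j, rfl⟩ := (hs.rng v).1 hv
  obtain ⟨k, hk, -⟩ := line_btw hC.tm hs.line hp
  exact (hs.rng p).2 ⟨k, hk⟩

private theorem far_dist (hC : CG d R) (x : R) (k : ℤ) : d (cht hC x k) (cht hC x (k + 2)) = 2 := by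
  have h := (cht_spec hC x).line k (k + 2)
  have e : |k - (k + 2)| = 2 := by
    rw [show k - (k + 2) = -2 by ring, abs_neg]
    rfl
  rw [e] at h
  exact_mod_cast h

private theorem far_small (hC : CG d R) (z x : R) (hxz : x ≠ z) {u v : V} (hu : u ∈ Ax d z.1)
    (hv : v ∈ Ax d z.1) : |del hC x u v| ≤ 1 := by
  by_contra hcon
  have h1 : 2 ≤ |ix hC x v - ix hC x u| := by
    unfold del at hcon
    omega
  have hne : ix hC x u ≠ ix hC x v := by
    intro h
    rw [h, sub_self, abs_zero] at h1
    omega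
  have h2 : min (ix hC x u) (ix hC x v) + 2 ≤ max (ix hC x u) (ix hC x v) := by
    rcases le_total (ix hC x u) (ix hC x v) with h | h
    · rw [abs_of_nonneg (by omega)] at h1
      rw [min_eq_left h, max_eq_right h]
      omega
    · rw [abs_of_nonpos (by omega)] at h1
      rw [min_eq_right h, max_eq_left h]
      omega
  have b1 := btw_proj hC x (k := min (ix hC x u) (ix hC x v)) hne (le_refl _) (by omega)
  have b2 := btw_proj hC x (k := min (ix hC x u) (ix hC x v) + 2) hne (by omega) h2
  have hs := cht_spec hC x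
  have h3 := hC.ov x.1 x.2 z.1 z.2 (fun h => hxz (Subtype.ext h)) _ _ ((hs.rng _).2 ⟨_, rfl⟩)
    (far_conv hC z hu hv b1) ((hs.rng _).2 ⟨_, rfl⟩) (far_conv hC z hu hv b2)
  rw [far_dist hC x] at h3
  omega

private theorem far_pow_ax (hC : CG d R) (z : R) {u : V} (hu : u ∈ Ax d z.1) (n : ℕ) :
    z.1 ^ n • u ∈ Ax d z.1 :=
  ax_smul hC.iso ((Commute.refl z.1).pow_left n).eq hu

private theorem far_del (hC : CG d R) (z : R) {u : V} (hu : u ∈ Ax d z.1) (n : ℕ) :
    del hC z u (z.1 ^ n • u) = n * tau hC z := by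
  have h := del_axis hC z hu n
  rw [zpow_natCast] at h
  exact h

theorem cc_axis (hC : CG d R) (z : R) {u : V} (hu : u ∈ Ax d z.1) {n : ℕ} (hn : 1 ≤ n) :
    cc hC u (z.1 ^ n • u) = n * tau hC z - 1 := by
  unfold cc
  rw [finsum_eq_single _ z (fun x hx => ff_small (far_small hC z x hx hu (far_pow_ax hC z hu n))),
    far_del hC z hu]
  have h1 := (cht_spec hC z).pos
  have h2 : (1 : ℤ) ≤ n * tau hC z := by
    have : 1 ≤ n * tau hC z := Nat.mul_pos hn h1
    exact_mod_cast this
  unfold ff
  rw [if_pos h2]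

theorem far_idx (hC : CG d R) (z : R) {h : G} (hh : ¬ Commute h z.1) :
    ∃ u, u ∈ Ax d z.1 ∧ 0 < del hC z (h • u) u := by
  have hs := cht_spec hC z
  have hne : z ≠ (⟨h * z.1 * h⁻¹, hC.conj h z.1 z.2⟩ : R) := by
    intro e
    have e1 : z.1 = h * z.1 * h⁻¹ := congrArg Subtype.val e
    apply hh
    show h * z.1 = z.1 * h
    rw [eq_mul_inv_iff_mul_eq] at e1
    exact e1.symm
  have hax : ∀ n, cht hC z n ∈ Ax d z.1 := fun n => (hs.rng _).2 ⟨n, rfl⟩
  refine ⟨cht hC z (ix hC z (h • cht hC z 0) + 2), hax _, ?_⟩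
  have h1 := far_small hC ⟨h * z.1 * h⁻¹, hC.conj h z.1 z.2⟩ z hne
    ((ax_conj hC.iso z.1 h _).2 (hax 0))
    ((ax_conj hC.iso z.1 h _).2 (hax (ix hC z (h • cht hC z 0) + 2)))
  have h2 : ix hC z (cht hC z (ix hC z (h • cht hC z 0) + 2)) = ix hC z (h • cht hC z 0) + 2 :=
    idx_uniq (ix_spec hC z _) (idx_self hC.tm hs.line _)
  unfold del at h1 ⊢
  rw [h2]
  have h3 := abs_le.1 h1
  omega

theorem cc_far (hC : CG d R) (z : R) {h : G} {u : V} (hu : u ∈ Ax d z.1)
    (hdel : 0 < del hC z (h • u) u) {n : ℕ} (hn : 1 ≤ n) :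
    cc hC (h • u) (z.1 ^ n • u) = cc hC (h • u) u + cc hC u (z.1 ^ n • u) + 1 := by
  have hs := cht_spec hC z
  have hpos : 0 < del hC z u (z.1 ^ n • u) := by
    rw [far_del hC z hu]
    have h1 := hs.pos
    have : 0 < n * tau hC z := Nat.mul_pos hn h1
    exact_mod_cast this
  generalize h • u = a at hdel ⊢
  generalize z.1 ^ n • u = c at hpos ⊢
  have hcu : cht hC z (ix hC z u) = u := by
    obtain ⟨k, hk⟩ := (hs.rng u).1 hu
    have h1 : ix hC z u = k := by
      rw [hk]
      exact idx_uniq (ix_spec hC z _) (idx_self hC.tm hs.line _)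
    rw [h1, hk]
  have hsy := hC.tm.symm
  have h0 : d u u = 0 := (hC.tm.zero u u).2 rfl
  have ha : ix hC z a < ix hC z u := by
    unfold del at hdel
    omega
  have hc : ix hC z u < ix hC z c := by
    unfold del at hpos
    omega
  have hauc : Btw d a u c := by
    have h1 := btw_proj hC z (u := a) (v := c) (k := ix hC z u) (by omega)
      (by rw [min_eq_left (by omega)]; omega) (by rw [max_eq_right (by omega)]; omega)
    rwa [hcu] at h1
  have hz : ∀ x : R, x ≠ z → ff (del hC x a u) + ff (del hC x u c) - ff (del hC x a c) = 0 := by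
    intro x hx
    rw [← del_add hC x a u c]
    apply ff_add_zero
    by_contra hcon
    push Not at hcon
    obtain ⟨h1, h2, h3⟩ := hcon
    have hb1 : Btw d a u u := by
      unfold SXP.Btw
      omega
    have hb2 : Btw d u u c := by
      unfold SXP.Btw
      omega
    have hb3 : Btw d u u a := by
      unfold SXP.Btw
      omega
    have hb4 : Btw d c u u := by
      unfold SXP.Btw
      omega
    have e1 := del_neg hC x a u
    have e2 := del_neg hC x u c
    have e3 := del_add hC x a u c
    have e4 := del_neg hC x a c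
    have key : ((0 < del hC x a u ∧ 0 < del hC x u c) ∨ (del hC x a u < 0 ∧ del hC x u c < 0)) ∨
        ((0 < del hC x u a ∧ 0 < del hC x a c) ∨ (del hC x u a < 0 ∧ del hC x a c < 0)) ∨
        ((0 < del hC x a c ∧ 0 < del hC x c u) ∨ (del hC x a c < 0 ∧ del hC x c u < 0)) := by
      omega
    rcases key with h4 | h4 | h4
    · obtain ⟨-, -, -, -, h5, h6⟩ := mid hC x h4 hb1 hb2 hauc
      have g1 : Btw d a (cht hC z (ix hC z u - 1)) u :=
        btw_proj hC z (by omega) (by rw [min_eq_left (by omega)]; omega)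
          (by rw [max_eq_right (by omega)]; omega)
      have g2 : Btw d c (cht hC z (ix hC z u + 1)) u :=
        btw_proj hC z (by omega) (by rw [min_eq_right (by omega)]; omega)
          (by rw [max_eq_left (by omega)]; omega)
      have g3 : d u (cht hC z (ix hC z u - 1)) = 1 := by
        have g := hs.line (ix hC z u) (ix hC z u - 1)
        rw [hcu, sub_sub_cancel, abs_one] at g
        exact_mod_cast g
      have g4 : d u (cht hC z (ix hC z u + 1)) = 1 := by
        have g := hs.line (ix hC z u) (ix hC z u + 1)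
        rw [hcu, sub_add_cancel_left, abs_neg, abs_one] at g
        exact_mod_cast g
      have g5 := hC.ov x.1 x.2 z.1 z.2 (fun h => hx (Subtype.ext h)) _ _ (h5 _ g3 g1)
        ((hs.rng _).2 ⟨_, rfl⟩) (h6 _ g4 g2) ((hs.rng _).2 ⟨_, rfl⟩)
      have g6 := far_dist hC z (ix hC z u - 1)
      rw [show ix hC z u - 1 + 2 = ix hC z u + 1 by ring] at g6
      omega
    · exact (mid hC x h4 hb3 hauc hb2).2.2.1 rfl
    · exact (mid hC x h4 hauc hb4 hb1).2.2.2.1 rfl
  have h1 := cc_defect hC a u c
  rw [finsum_eq_single _ z hz, ← del_add hC z a u c, ff_add_pos hdel hpos] at h1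
  linarith

end SXG
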