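import Pool.Agent.SXG.Del

/-! Project SXG, module SXG-Fin: only finitely many axes overlap a geodesic in two edges or more.

`seg_finite`: the map `y ↦ d u y` is injective on `{y | Btw d u y v}` (`btw_uniq`) with values `≤ d u v`.
`fin_del`: for `x` with `2 ≤ |del x u v|`, let `i = min (ix u) (ix v)`; then `c i` and `c (i + 2)`
(`c = cht x`) are both between `u` and `v` (`btw_proj`) and in `Ax d x`, at distance 2.  The map
`x ↦ (c i, c (i+2))` is injective on these `x` by `hC.ov`. -/

namespace SXG

open SXP

variable {V G : Type*} [Group G] [MulAction G V] {d : V → V → ℕ} {R : Set G}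

theorem seg_finite (h : TM d) (u v : V) : {y | Btw d u y v}.Finite := by
  refine Set.Finite.of_injOn (f := fun y => d u y) (t := Set.Iic (d u v)) ?_ ?_ (Set.finite_Iic _)
  · intro y hy
    have h1 : d u y + d y v = d u v := hy
    show d u y ≤ d u v
    omega
  · intro y hy y' hy' hyy
    exact btw_uniq h hy hy' hyy

theorem fin_del (hC : CG d R) (u v : V) : {x : R | 2 ≤ |del hC x u v|}.Finite := by
  have hS := seg_finite hC.tm u v
  refine Set.Finite.of_injOn
    (f := fun x : R => (cht hC x (min (ix hC x u) (ix hC x v)), cht hC x (min (ix hC x u) (ix hC x v) + 2)))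
    (t := {y | Btw d u y v} ×ˢ {y | Btw d u y v}) ?_ ?_ (hS.prod hS)
  · intro x hx
    have h1 : 2 ≤ |ix hC x v - ix hC x u| := hx
    have h2 : min (ix hC x u) (ix hC x v) + 2 ≤ max (ix hC x u) (ix hC x v) := by
      rcases le_total (ix hC x u) (ix hC x v) with h | h
      · rw [min_eq_left h, max_eq_right h]
        rw [abs_of_nonneg (by omega)] at h1
        omega
      · rw [min_eq_right h, max_eq_left h]
        rw [abs_of_nonpos (by omega)] at h1
        omega
    have hne : ix hC x u ≠ ix hC x v := by
      intro h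
      rw [h, sub_self, abs_zero] at h1
      omega
    exact ⟨btw_proj hC x hne le_rfl (by omega), btw_proj hC x hne (by omega) h2⟩
  · intro x _ y _ hxy
    by_contra hne
    have hne' : x.1 ≠ y.1 := fun h => hne (Subtype.ext h)
    have hxy1 := (Prod.ext_iff.1 hxy).1
    have hxy2 := (Prod.ext_iff.1 hxy).2
    simp only at hxy1 hxy2
    have hx := cht_spec hC x
    have hy := cht_spec hC y
    have h3 := hC.ov x.1 x.2 y.1 y.2 hne' (cht hC x (min (ix hC x u) (ix hC x v)))
      (cht hC x (min (ix hC x u) (ix hC x v) + 2)) ((hx.rng _).2 ⟨_, rfl⟩) ((hy.rng _).2 ⟨_, hxy1⟩)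
      ((hx.rng _).2 ⟨_, rfl⟩) ((hy.rng _).2 ⟨_, hxy2⟩)
    have h4 := hx.line (min (ix hC x u) (ix hC x v)) (min (ix hC x u) (ix hC x v) + 2)
    have h5 : |min (ix hC x u) (ix hC x v) - (min (ix hC x u) (ix hC x v) + 2)| = 2 := by
      rw [show min (ix hC x u) (ix hC x v) - (min (ix hC x u) (ix hC x v) + 2) = -2 by ring]
      norm_num
    rw [h5] at h4
    omega

theorem fin_supp (hC : CG d R) (u v : V) :
    (Function.support fun x : R => ff (del hC x u v)).Finite := by
  refine (fin_del hC u v).subset fun x hx => ?_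
  have h1 : ff (del hC x u v) ≠ 0 := hx
  show 2 ≤ |del hC x u v|
  by_contra h2
  apply h1
  have h3 : |del hC x u v| ≤ 1 := by omega
  have h4 := abs_le.1 h3
  unfold ff
  split_ifs <;> omega

end SXG
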