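import Pool.Agent.SXP.HOv

/-! Project SXG, module SXG-Two: a vertical plane is crossed at most once by the path
`x, μ x, μ² x`.

`S = plane N` with `N 0 0 = 0` (`AtInf`), `x.1 = [[a, w], [conj w, b]]` (`a, b` real).
`(act (ρ μ) x).1` has the same entry `b` at `(1,1)` and `w + m b` at `(0,1)` (both signs of `ρ μ`), and
`lin N x = 2 Re(w N 1 0) + b (N 1 1).re` (`N` Hermitian, `N 0 0 = 0`), so
`lin N (μ x) = lin N x + e`, `lin N (μ μ x) = lin N x + 2 e`, `e = 2 b Re(m N 1 0)`: `affine`.
If `A (A + e) < 0` then `A + e` and `A + 2 e` have the same sign; if `(A + e) (A + 2 e) < 0` then `A`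
and `A + e` have the same sign.  `sep_iff`. -/

namespace SXG

open SXP

variable {G : Type*} [Group G] {ρ : G →* Matrix.SpecialLinearGroup (Fin 2) ℂ} {μ lam : G}
  {m l : ℂ}

open Matrix in
private theorem two_core {A : Matrix (Fin 2) (Fin 2) ℂ} {m : ℂ}
    (hA : A = !![1, m; 0, 1] ∨ A = -!![1, m; 0, 1]) {N : Matrix (Fin 2) (Fin 2) ℂ}
    (h0 : N 0 0 = 0) (P : Matrix (Fin 2) (Fin 2) ℂ) :
    lin N (A * P * Aᴴ) = lin N P + (m * P 1 1 * N 1 0 + star m * P 1 1 * N 0 1).re ∧
      (A * P * Aᴴ) 1 1 = P 1 1 := by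
  have hB : A * P * Aᴴ = !![1, m; 0, 1] * P * (!![1, m; 0, 1])ᴴ := by
    rcases hA with hA | hA
    · rw [hA]
    · rw [hA, Matrix.conjTranspose_neg, Matrix.mul_neg, Matrix.neg_mul, Matrix.neg_mul, neg_neg]
  rw [hB]
  constructor
  · rw [lin, lin, ← Complex.add_re]
    refine congrArg Complex.re ?_
    simp only [Matrix.trace_fin_two, Matrix.mul_apply, Fin.sum_univ_two,
      Matrix.conjTranspose_apply, Matrix.cons_val_zero, Matrix.cons_val_one, Matrix.of_apply,
      Matrix.cons_val', Matrix.cons_val_fin_one, star_one, star_zero, h0]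
    ring
  · simp only [Matrix.mul_apply, Fin.sum_univ_two,
      Matrix.conjTranspose_apply, Matrix.cons_val_zero, Matrix.cons_val_one, Matrix.of_apply,
      Matrix.cons_val', Matrix.cons_val_fin_one, star_one, star_zero]
    ring

theorem affine (hc : TorusCusp ρ μ lam m l) {N : Matrix (Fin 2) (Fin 2) ℂ} (hN : IsNormal N)
    (h0 : N 0 0 = 0) (x : H3) : ∃ e : ℝ, lin N (act (ρ μ) x).1 = lin N x.1 + e ∧
      lin N (act (ρ μ) (act (ρ μ) x)).1 = lin N x.1 + 2 * e := by
  refine ⟨(m * x.1 1 1 * N 1 0 + star m * x.1 1 1 * N 0 1).re, ?_, ?_⟩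
  · exact (two_core hc.hμ h0 x.1).1
  · have h1 := two_core hc.hμ h0 x.1
    have h2 := two_core hc.hμ h0 (act (ρ μ) x).1
    have h3 : (act (ρ μ) x).1 1 1 = x.1 1 1 := h1.2
    have h4 : lin N (act (ρ μ) x).1 = _ := h1.1
    have h5 : lin N (act (ρ μ) (act (ρ μ) x)).1 = _ := h2.1
    rw [h5, h3, h4]
    ring

theorem once_right (hc : TorusCusp ρ μ lam m l) {S : Set H3} (hS : AtInf S) {x : H3}
    (h : Sep S x (act (ρ μ) x)) : ¬ Sep S (act (ρ μ) x) (act (ρ μ) (act (ρ μ) x)) := by
  obtain ⟨N, hN, rfl, h0⟩ := hS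
  obtain ⟨e, h1, h2⟩ := affine hc hN h0 x
  rw [sep_iff hN, h1] at h
  rw [sep_iff hN, h1, h2]
  intro h3
  rcases mul_neg_iff.1 h with ⟨h4, h5⟩ | ⟨h4, h5⟩ <;>
    rcases mul_neg_iff.1 h3 with ⟨h6, h7⟩ | ⟨h6, h7⟩ <;> linarith

theorem once_left (hc : TorusCusp ρ μ lam m l) {S : Set H3} (hS : AtInf S) {x : H3}
    (h : Sep S (act (ρ μ) x) (act (ρ μ) (act (ρ μ) x))) : ¬ Sep S x (act (ρ μ) x) :=
  fun h1 => once_right hc hS h1 h

/-- An element commuting with `μ` fixes `∞`. -/
theorem stab_of_comm (hc : TorusCusp ρ μ lam m l) {g : G} (hg : Commute g μ) :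
    (ρ g).1 1 0 = 0 := by
  have hm : m ≠ 0 := by
    have := hc.ind.ne_zero 0
    simpa using this
  have h1 : ρ g * ρ μ = ρ μ * ρ g := by rw [← map_mul, ← map_mul, hg.eq]
  have h2 : (ρ g).1 * (ρ μ).1 = (ρ μ).1 * (ρ g).1 := by
    have h3 := congrArg Subtype.val h1
    rwa [Matrix.SpecialLinearGroup.coe_mul, Matrix.SpecialLinearGroup.coe_mul] at h3
  have h3 : (ρ g).1 * !![1, m; 0, 1] = !![1, m; 0, 1] * (ρ g).1 := by
    rcases hc.hμ with h | h
    · rwa [h] at h2
    · rwa [h, Matrix.mul_neg, Matrix.neg_mul, neg_inj] at h2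
  have h4 := congrFun (congrFun h3 0) 0
  simp only [Matrix.mul_apply, Fin.sum_univ_two, Matrix.cons_val_zero, Matrix.cons_val_one,
    Matrix.of_apply, Matrix.cons_val', Matrix.cons_val_fin_one] at h4
  have h5 : m * (ρ g).1 1 0 = 0 := by linear_combination -h4
  exact (mul_eq_zero.1 h5).resolve_left hm

/-- The centraliser of `μ` is abelian: it is contained in the closure of `{μ, lam}`. -/
theorem centr_abel (hc : TorusCusp ρ μ lam m l) {a b : G} (ha : Commute a μ)
    (hb : Commute b μ) : Commute a b := by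
  have h1 := hc.stab a (stab_of_comm hc ha)
  have h2 := hc.stab b (stab_of_comm hc hb)
  have key : ∀ y ∈ ({μ, lam} : Set G), ∀ x ∈ Subgroup.closure ({μ, lam} : Set G),
      Commute x y := by
    intro y hy x hx
    induction hx using Subgroup.closure_induction with
    | mem x hx =>
      rcases hx with rfl | hx <;> rcases hy with rfl | hy
      · exact Commute.refl _
      · rw [Set.mem_singleton_iff] at hy
        subst hy
        exact hc.comm
      · rw [Set.mem_singleton_iff] at hx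
        subst hx
        exact hc.comm.symm
      · rw [Set.mem_singleton_iff] at hx hy
        subst hx
        subst hy
        exact Commute.refl _
    | one => exact Commute.one_left _
    | mul x z _ _ hx hz => exact hx.mul_left hz
    | inv x _ hx => exact hx.inv_left
  clear hb
  induction h2 using Subgroup.closure_induction with
  | mem y hy => exact key y hy a h1
  | one => exact Commute.one_right _
  | mul x z _ _ hx hz => exact hx.mul_right hz
  | inv x _ hx => exact hx.inv_right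

/-- `μ` has infinite order. -/
theorem mu_pow_ne (hc : TorusCusp ρ μ lam m l) {n : ℕ} (hn : 1 ≤ n) : μ ^ n ≠ 1 := by
  intro h
  have hm : m ≠ 0 := by
    have := hc.ind.ne_zero 0
    simpa using this
  have h1 := rho_zpow hc.hμ (n : ℤ)
  rw [_root_.zpow_natCast, h, map_one, Matrix.SpecialLinearGroup.coe_one] at h1
  have hn0 : (n : ℂ) ≠ 0 := by
    have : n ≠ 0 := by omega
    exact_mod_cast this
  have h2 : (n : ℂ) * m ≠ 0 := mul_ne_zero hn0 hm
  rcases h1 with h1 | h1
  · have h3 := congrFun (congrFun h1 0) 1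
    simp at h3
    rcases h3 with h3 | h3
    · omega
    · exact hm h3
  · have h3 := congrFun (congrFun h1 0) 1
    simp at h3
    rcases h3 with h3 | h3
    · omega
    · exact hm h3

end SXG
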