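import Mathlib

/-! Project SXG, module SXG-Word (Mathlib only): polygons and products of commutators.

`F : V → V → ℤ` is antisymmetric, `G`-invariant and `F a c ≤ F a b + F b c + D`; `poly` bounds
`F u (p • u)` for a product `p`, `cword` is the word of a product of commutators, and `split` cuts a
word whose letters do not all commute with `z`. -/

namespace SXG

variable {V G : Type*} [Group G] [MulAction G V]

/-- The word of a product of commutators. -/
def cword : List (G × G) → List G
  | [] => []
  | p :: l => p.1 :: p.2 :: p.1⁻¹ :: p.2⁻¹ :: cword l

theorem cword_prod (l : List (G × G)) :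
    (cword l).prod = (l.map fun p => p.1 * p.2 * p.1⁻¹ * p.2⁻¹).prod := by
  induction l with
  | nil => simp [cword]
  | cons p l ih => simp [cword, ih, mul_assoc]

theorem cword_length (l : List (G × G)) : (cword l).length = 4 * l.length := by
  induction l with
  | nil => simp [cword]
  | cons p l ih =>
    simp only [cword, List.length_cons, ih]
    ring

theorem poly (F : V → V → ℤ) (hinv : ∀ (g : G) u v, F (g • u) (g • v) = F u v) (D : ℕ)
    (htri : ∀ a b c, F a c ≤ F a b + F b c + D) (u : V) (L : List G) (hL : L ≠ []) :
    F u (L.prod • u) ≤ (L.map fun g => F u (g • u)).sum + D * (L.length - 1 : ℤ) := by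
  induction L with
  | nil => exact absurd rfl hL
  | cons g L ih =>
    by_cases h : L = []
    · subst h
      simp
    · have h1 := ih h
      have h2 := htri u (g • u) ((g :: L).prod • u)
      have h3 : F (g • u) ((g :: L).prod • u) = F u (L.prod • u) := by
        rw [List.prod_cons, mul_smul, hinv]
      rw [h3] at h2
      simp only [List.map_cons, List.sum_cons, List.length_cons]
      push_cast
      have h4 : (D : ℤ) * ((L.length : ℤ) + 1 - 1) = D * (L.length - 1) + D := by ring
      rw [h4]
      linarith

theorem cword_sum (F : V → V → ℤ) (hinv : ∀ (g : G) u v, F (g • u) (g • v) = F u v)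
    (hneg : ∀ u v, F v u = -F u v) (u : V) (l : List (G × G)) :
    ((cword l).map fun g => F u (g • u)).sum = 0 := by
  have key : ∀ g : G, F u (g⁻¹ • u) = - F u (g • u) := by
    intro g
    have h1 := hinv g u (g⁻¹ • u)
    rw [smul_inv_smul] at h1
    rw [← h1, hneg]
  induction l with
  | nil => simp [cword]
  | cons p l ih =>
    simp only [cword, List.map_cons, List.sum_cons, ih, key]
    ring

theorem split (z : G) (W : List G) (hW : ¬ ∀ g ∈ W, Commute g z) (hp : Commute W.prod z) :
    ∃ L₁ L₂ : List G, W = L₁ ++ L₂ ∧ L₁ ≠ [] ∧ L₂ ≠ [] ∧ ¬ Commute L₁.prod z := by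
  by_contra hcon
  push Not at hcon
  have pre : ∀ k, Commute (W.take k).prod z := by
    intro k
    by_cases h1 : W.take k = []
    · rw [h1]
      simp
    · by_cases h2 : W.drop k = []
      · have h3 : W.take k = W := by
          have h4 := List.take_append_drop k W
          rw [h2, List.append_nil] at h4
          exact h4
        rw [h3]
        exact hp
      · exact hcon (W.take k) (W.drop k) (List.take_append_drop k W).symm h1 h2
  apply hW
  intro g hg
  obtain ⟨i, hi, rfl⟩ := List.getElem_of_mem hg
  have h1 := List.prod_take_succ W i hi
  have h2 : W[i] = ((W.take i).prod)⁻¹ * (W.take (i + 1)).prod := by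
    rw [h1]
    group
  rw [h2]
  exact (pre i).inv_left.mul_left (pre (i + 1))

/-- If all letters of a product of commutators are in an abelian subgroup, the product is one. -/
theorem cword_one (z : G) (hab : ∀ a b : G, Commute a z → Commute b z → Commute a b)
    (l : List (G × G)) (h : ∀ g ∈ cword l, Commute g z) : (cword l).prod = 1 := by
  induction l with
  | nil => simp [cword]
  | cons p l ih =>
    have h1 : Commute p.1 z := h _ (by simp [cword])
    have h2 : Commute p.2 z := h _ (by simp [cword])
    have h3 : (cword l).prod = 1 := ih (fun g hg => h g (by simp [cword, hg]))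
    have h4 : p.1 * p.2 = p.2 * p.1 := hab _ _ h1 h2
    simp only [cword, List.prod_cons, h3, mul_one]
    rw [← mul_assoc, h4]
    group

end SXG
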