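import Pool.Agent.SXG.Far
import Pool.Agent.SXG.Word

/-! Project SXG: the commutator length inequality for trees. -/

namespace SXG

open SXP

variable {V G : Type*} [Group G] [MulAction G V] {d : V → V → ℕ} {R : Set G}

theorem tree_genus (hC : CG d R) {D : ℕ} (hD : D = 3 ∨ (D = 2 ∧ SXQ.NoTri d R)) (z : R)
    (hab : ∀ a b : G, Commute a z.1 → Commute b z.1 → Commute a b) {n : ℕ} (hn : 1 ≤ n)
    (l : List (G × G)) (hl : (l.map fun p => p.1 * p.2 * p.1⁻¹ * p.2⁻¹).prod = z.1 ^ n) :
    n * tau hC z + 2 * D ≤ D * (4 * l.length) := by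
  have hpos := (cht_spec hC z).pos
  have hprod : (cword l).prod = z.1 ^ n := by rw [cword_prod, hl]
  obtain ⟨u0, hu0⟩ : ∃ u, u ∈ Ax d z.1 := ⟨_, ((cht_spec hC z).rng _).2 ⟨0, rfl⟩⟩
  have hne : z.1 ^ n ≠ 1 := by
    intro h
    have h1 := cc_axis hC z hu0 hn
    have h2 := del_axis hC z hu0 n
    rw [zpow_natCast, h, one_smul] at h2
    unfold del at h2
    have h3 : (0 : ℤ) < n * tau hC z := by positivity
    rw [sub_self] at h2
    exact absurd h2 h3.ne
  have hW : ¬ ∀ g ∈ cword l, Commute g z.1 := by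
    intro h
    exact hne (by rw [← hprod]; exact cword_one z.1 hab l h)
  obtain ⟨L₁, L₂, hL, h1, h2, hh⟩ := split z.1 (cword l) hW (by
    rw [hprod]; exact (Commute.refl z.1).pow_left n)
  obtain ⟨u, hu, hdel⟩ := far_idx hC z hh
  have e1 := poly (cc hC) (cc_smul hC) D (cc_tri hC hD) u L₁ h1
  have e2 := poly (cc hC) (cc_smul hC) D (cc_tri hC hD) u L₂ h2
  have e3 := cword_sum (cc hC) (cc_smul hC) (cc_neg hC) u l
  have e4 := cword_length l
  have e5 := cc_far hC z hu hdel hn
  have e6 := cc_axis hC z hu hn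
  have e7 : cc hC u (L₂.prod • u) = cc hC (L₁.prod • u) (z.1 ^ n • u) := by
    rw [← cc_smul hC L₁.prod, ← mul_smul, ← List.prod_append, ← hL, hprod]
  have e8 := cc_neg hC u (L₁.prod • u)
  rw [hL, List.map_append, List.sum_append] at e3
  rw [hL, List.length_append] at e4
  have e9 : (L₁.length : ℤ) + L₂.length = 4 * l.length := by exact_mod_cast e4
  have key : (n : ℤ) * tau hC z + 2 * D ≤ D * (4 * l.length) := by
    have : (D : ℤ) * (L₁.length - 1) + D * (L₂.length - 1) = D * (4 * l.length) - 2 * D := by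
      rw [← e9]; ring
    linarith
  exact_mod_cast key

end SXG
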