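import Pool.Agent.SXG.Cross
import Pool.Agent.SXG.Tree
import Pool.Agent.SXQ.XFree

/-! Project SXG, module SXG-Wall: the commutator length inequality for wall spaces.

Use `letI := regAct hS heq`, `hsm : ∀ g x, g • reg hS x = reg hS (g • x) := fun _ _ => rfl`,
`hiso := rd_iso hS heq hsm`; `Nonempty (Reg hS)` from a point of `X`.  Build
`hC : CG (rd hS) R`: `tm := reg_tm hS`, `iso := hiso`, `conj := hconj`, `ch`: `chart_sq` (displacement of
`x • x • v`: `hsq`), `ov`: if two different walls `w, w'` separate two points `p, q` with `reg p`, `reg q`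
on the axes of `x` and `y` (`Set.one_lt_ncard`), then both are crossed by `x` and `y` (`ax_cross` with
the charts), contradiction to `hov` (see the proof of `ws_free` in SXP/XFree.lean and of
`ws_free'` in SXQ/XFree.lean: copy).  For `D = 2`: `SXQ.NoTri (rd hS) R` from `SXQ.NoTriW sep R` exactly as in
the field `alt` in SXQ/XFree.lean (copy `adj_wall`, `adj_ne`, with `hcr` from `ax_cross`).
Then `tree_genus hC hD ⟨z, hz⟩ hab hn l hl`.  `p₀`: a representative of `cht hC z 0`, `z • p₀` represents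
`cht hC z τ`, so `ds p₀ (z • p₀) = τ` (line), and the walls separating them are crossed by `z`
(`ax_cross`). -/

namespace SXG

open SXP

variable {X W G : Type*} [Group G] [MulAction G X] [MulAction G W] {sep : W → X → X → Prop}

private theorem adj_wall (hS : WS sep) {p q : X} (h : rd hS (reg hS p) (reg hS q) = 1) :
    ∃ w, sep w p q ∧ ∀ w', sep w' p q → w' = w := by
  rw [rd_reg] at h
  unfold ds at h
  rw [Set.ncard_eq_one] at h
  obtain ⟨w, hw⟩ := h
  refine ⟨w, ?_, fun w' hw' => ?_⟩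
  · have : w ∈ {w | sep w p q} := by rw [hw]; rfl
    exact this
  · have : w' ∈ {w | sep w p q} := hw'
    rw [hw] at this
    exact this

private theorem adj_ne (hS : WS sep) {p q r : X} {w w' : W} (h1 : sep w p q)
    (h1' : ∀ u, sep u p q → u = w) (h2 : sep w' p r) (h2' : ∀ u, sep u p r → u = w')
    (hne : reg hS q ≠ reg hS r) : w ≠ w' := by
  rintro rfl
  apply hne
  rw [reg_eq]
  intro u hu
  have h3 := hS.xor u q p r
  have h4 := hS.sym u p q
  by_cases hw : u = w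
  · subst hw
    tauto
  · have a1 : ¬ sep u p q := fun h => hw (h1' u h)
    have a2 : ¬ sep u p r := fun h => hw (h2' u h)
    tauto

theorem ws_genus (hS : WS sep)
    (heq : ∀ (g : G) w x y, sep (g • w) (g • x) (g • y) ↔ sep w x y) [Nonempty X] (R : Set G)
    (hconj : ∀ g : G, ∀ x ∈ R, g * x * g⁻¹ ∈ R)
    (hsq : ∀ x ∈ R, ∀ p : X, 2 ≤ ds sep p (x • x • p))
    (hov : ∀ x ∈ R, ∀ y ∈ R, x ≠ y → ∀ w w', w ≠ w' → Cross sep x w → Cross sep x w' →
      Cross sep y w → Cross sep y w' → False)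
    {D : ℕ} (hD : D = 3 ∨ (D = 2 ∧ SXQ.NoTriW sep R)) {z : G} (hz : z ∈ R)
    (hab : ∀ a b : G, Commute a z → Commute b z → Commute a b) {n : ℕ} (hn : 1 ≤ n)
    (l : List (G × G)) (hl : (l.map fun p => p.1 * p.2 * p.1⁻¹ * p.2⁻¹).prod = z ^ n) :
    ∃ p₀ : X, n * ds sep p₀ (z • p₀) + 2 * D ≤ D * (4 * l.length) ∧
      ∀ w, sep w p₀ (z • p₀) → Cross sep z w := by
  letI := regAct hS heq
  have hsm : ∀ (g : G) (x : X), g • reg hS x = reg hS (g • x) := fun _ _ => rfl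
  have hiso := rd_iso hS heq hsm
  haveI : Nonempty (Reg hS) := ⟨reg hS (Classical.arbitrary X)⟩
  have hsq' : ∀ x ∈ R, ∀ v : Reg hS, 2 ≤ rd hS v (x • x • v) := by
    intro x hx v
    obtain ⟨y, rfl⟩ := reg_surj hS v
    rw [hsm, hsm, rd_reg]
    exact hsq x hx y
  have hch : ∀ x ∈ R, ∃ (c : ℤ → Reg hS) (τ : ℕ), Chart (rd hS) x c τ := fun x hx =>
    chart_sq (reg_tm hS) hiso (hsq' x hx)
  have hcr : ∀ x ∈ R, ∀ p q : X, reg hS p ∈ Ax (rd hS) x → reg hS q ∈ Ax (rd hS) x →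
      ∀ w, sep w p q → Cross sep x w := by
    intro x hx p q hp hq w hw
    obtain ⟨c, τ, hc⟩ := hch x hx
    obtain ⟨i, hi⟩ := (hc.rng _).1 hp
    obtain ⟨j, hj⟩ := (hc.rng _).1 hq
    exact ax_cross hS heq hsm hc.pos hc.line hc.tr hi hj hw
  have hC : CG (rd hS) R :=
    { tm := reg_tm hS
      iso := hiso
      conj := hconj
      ch := hch
      ov := by
        intro x hx y hy hxy a b ha1 ha2 hb1 hb2
        by_contra hcon
        push Not at hcon
        obtain ⟨p, rfl⟩ := reg_surj hS a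
        obtain ⟨q, rfl⟩ := reg_surj hS b
        rw [rd_reg] at hcon
        unfold ds at hcon
        rw [Set.one_lt_ncard (hS.fin p q)] at hcon
        obtain ⟨w, hw, w', hw', hne⟩ := hcon
        exact hov x hx y hy hxy w w' hne (hcr x hx p q ha1 hb1 w hw)
          (hcr x hx p q ha1 hb1 w' hw') (hcr y hy p q ha2 hb2 w hw) (hcr y hy p q ha2 hb2 w' hw') }
  have hD' : D = 3 ∨ (D = 2 ∧ SXQ.NoTri (rd hS) R) := by
    rcases hD with h | ⟨h, hnt⟩
    · exact Or.inl h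
    · refine Or.inr ⟨h, ?_⟩
      intro x hx y hy z hz hxy hyz hxz v a b c hva hvb hvc hab hbc hac hvx hvy hvz hax hbx hby
        hcy hcz haz
      obtain ⟨pv, rfl⟩ := reg_surj hS v
      obtain ⟨pa, rfl⟩ := reg_surj hS a
      obtain ⟨pb, rfl⟩ := reg_surj hS b
      obtain ⟨pc, rfl⟩ := reg_surj hS c
      obtain ⟨wa, ha1, ha2⟩ := adj_wall hS hva
      obtain ⟨wb, hb1, hb2⟩ := adj_wall hS hvb
      obtain ⟨wc, hc1, hc2⟩ := adj_wall hS hvc
      exact hnt x hx y hy z hz hxy hyz hxz wa wb wc (adj_ne hS ha1 ha2 hb1 hb2 hab)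
        (adj_ne hS hb1 hb2 hc1 hc2 hbc) (adj_ne hS ha1 ha2 hc1 hc2 hac)
        (hcr x hx pv pa hvx hax wa ha1) (hcr x hx pv pb hvx hbx wb hb1)
        (hcr y hy pv pb hvy hby wb hb1) (hcr y hy pv pc hvy hcy wc hc1)
        (hcr z hz pv pc hvz hcz wc hc1) (hcr z hz pv pa hvz haz wa ha1)
  have key := tree_genus hC hD' ⟨z, hz⟩ hab hn l hl
  have hsp := cht_spec hC ⟨z, hz⟩
  obtain ⟨p₀, hp₀⟩ := reg_surj hS (cht hC ⟨z, hz⟩ 0)
  have h3 : reg hS (z • p₀) = cht hC ⟨z, hz⟩ (tau hC ⟨z, hz⟩) := by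
    have h5 := hsp.tr 0
    rw [zero_add] at h5
    rw [← hsm, ← hp₀]
    exact h5
  have h4 : ds sep p₀ (z • p₀) = tau hC ⟨z, hz⟩ := by
    have h5 := hsp.line 0 (tau hC ⟨z, hz⟩)
    rw [hp₀, ← h3, rd_reg] at h5
    have h6 : |(0 : ℤ) - (tau hC ⟨z, hz⟩ : ℕ)| = (tau hC ⟨z, hz⟩ : ℕ) := by
      rw [zero_sub, abs_neg]
      exact abs_of_nonneg (Int.natCast_nonneg _)
    rw [h6] at h5
    exact_mod_cast h5
  refine ⟨p₀, by rw [h4]; exact key, fun w hw => ?_⟩
  exact ax_cross hS heq hsm hsp.pos hsp.line hsp.tr hp₀.symm h3 hw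

end SXG
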