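import Pool.Agent.SXP.MainSep
import Pool.Agent.SXG.Wall
import Pool.Agent.SXG.Two

/-! Project SXG: assembly, the crossing number and the commutator length. -/

set_option linter.style.haveILetI false

namespace SXG

open SXP

variable {G : Type*} [Group G] {ρ : G →* Matrix.SpecialLinearGroup (Fin 2) ℂ} {μ lam : G}
  {m l : ℂ} {P : Set (Set H3)}

theorem two_le (hc : TorusCusp ρ μ lam m l) (hP : TGSurface ρ P) {x₀ : H3} (hx₀ : x₀ ∉ ⋃₀ P)
    (h1 : 1 ≤ crossNum ρ P μ x₀) (p : Pts P) :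
    letI := ptsAct hP
    2 ≤ ds (psep P) p (μ • μ • p) := by
  letI := ptsAct hP
  letI := planeAct hP
  rw [crossNum_const hc hP hx₀ p.2] at h1
  obtain ⟨S, hS⟩ := Set.nonempty_of_encard_ne_zero (s := {S | S ∈ P ∧ AtInf S ∧
    Sep S p.1 (act (ρ μ) p.1)}) (by
      intro h
      unfold crossNum at h1
      rw [h] at h1
      exact absurd h1 (by norm_num))
  obtain ⟨hSP, hSi, hs⟩ := hS
  have a1 : psep P ⟨S, hSP⟩ p (μ • p) := hs
  have a2 : ¬ psep P ⟨S, hSP⟩ (μ • p) (μ • μ • p) := once_right hc hSi hs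
  have b1 : psep P (μ • ⟨S, hSP⟩) (μ • p) (μ • μ • p) := (psep_smul hP μ _ _ _).2 a1
  have b2 : ¬ psep P (μ • ⟨S, hSP⟩) p (μ • p) := by
    intro h
    have e1 : p = μ • (μ⁻¹ • p) := (smul_inv_smul μ p).symm
    rw [e1, psep_smul hP, ← e1] at h
    have h' : Sep S (μ⁻¹ • p).1 (act (ρ μ) (μ⁻¹ • p).1) := by
      have e2 : act (ρ μ) (μ⁻¹ • p).1 = p.1 := congrArg Subtype.val (smul_inv_smul μ p)
      rw [e2]
      exact h
    have h3 := once_right hc hSi h'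
    apply h3
    have e2 : act (ρ μ) (μ⁻¹ • p).1 = p.1 := congrArg Subtype.val (smul_inv_smul μ p)
    rw [e2]
    exact hs
  have hne : (⟨S, hSP⟩ : P) ≠ μ • ⟨S, hSP⟩ := by
    intro h
    apply a2
    rw [← h] at b1
    exact b1
  have c1 := (ws hP).xor ⟨S, hSP⟩ p (μ • p) (μ • μ • p)
  have c2 := (ws hP).xor (μ • ⟨S, hSP⟩) p (μ • p) (μ • μ • p)
  have d1 : psep P ⟨S, hSP⟩ p (μ • μ • p) := c1.mpr ⟨fun _ => a2, fun _ => a1⟩
  have d2 : psep P (μ • ⟨S, hSP⟩) p (μ • μ • p) :=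
    c2.mpr ⟨fun h => absurd h b2, fun h => absurd b1 h⟩
  have : 1 < ds (psep P) p (μ • μ • p) := by
    unfold ds
    rw [Set.one_lt_ncard ((ws hP).fin p (μ • μ • p))]
    exact ⟨_, d1, _, d2, hne⟩
  omega

theorem genus_main (hc : TorusCusp ρ μ lam m l) (hP : TGSurface ρ P) {x : H3} (hx : x ∉ ⋃₀ P)
    {N : ℕ} (hN : crossNum ρ P μ x = N) {D : ℕ}
    (hD : D = 3 ∨ (D = 2 ∧ ¬ IdealTriangle ρ P)) {n : ℕ} (hn : 1 ≤ n)
    (w : List (G × G)) (hw : (w.map fun p => p.1 * p.2 * p.1⁻¹ * p.2⁻¹).prod = μ ^ n) :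
    n * N + 2 * D ≤ D * (4 * w.length) := by
  letI := ptsAct hP
  letI := planeAct hP
  haveI : Nonempty (Pts P) := ⟨⟨x, hx⟩⟩
  rcases Nat.eq_zero_or_pos N with h0 | hpos
  · subst h0
    have hne : w ≠ [] := by
      rintro rfl
      exact mu_pow_ne hc hn (by simpa using hw.symm)
    have h1 : 1 ≤ w.length := List.length_pos_iff.mpr hne
    have h2 : D * (4 * 1) ≤ D * (4 * w.length) :=
      Nat.mul_le_mul_left D (Nat.mul_le_mul_left 4 h1)
    rw [Nat.mul_zero]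
    omega
  have h1 : 1 ≤ crossNum ρ P μ x := by rw [hN]; exact_mod_cast hpos
  have hrep : ∀ y ∈ Group.conjugatesOfSet ({μ} : Set G), ∃ k : G, k * μ * k⁻¹ = y := by
    intro y hy
    rw [Group.mem_conjugatesOfSet_iff] at hy
    obtain ⟨a, ha, hay⟩ := hy
    rw [Set.mem_singleton_iff] at ha
    subst ha
    rw [isConj_iff] at hay
    exact hay
  have hμR : μ ∈ Group.conjugatesOfSet ({μ} : Set G) := by
    rw [Group.mem_conjugatesOfSet_iff]
    exact ⟨μ, rfl, IsConj.refl μ⟩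
  have key := ws_genus (ws hP) (psep_smul hP) (Group.conjugatesOfSet {μ})
    (hconj := ?_) (hsq := ?_) (hov := ?_) (D := D) (hD := ?_) hμR
    (fun a b ha hb => centr_abel hc ha hb) hn w hw
  · obtain ⟨p₀, hp, hcr⟩ := key
    have h3 := cross_eq (μ := μ) hP p₀ (fun S hS => cross_inf' hc hP S p₀ (hcr S hS))
    rw [crossNum_const hc hP p₀.2 hx, hN] at h3
    have h4 : N = ds (psep P) p₀ (μ • p₀) := by exact_mod_cast h3
    rw [h4]
    exact hp
  · intro k y hy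
    rw [Group.mem_conjugatesOfSet_iff] at hy ⊢
    obtain ⟨a, ha, hay⟩ := hy
    refine ⟨a, ha, hay.trans ?_⟩
    rw [isConj_iff]; exact ⟨k, rfl⟩
  · intro y hy p
    obtain ⟨k, rfl⟩ := hrep y hy
    have h2 := two_le hc hP hx h1 (k⁻¹ • p)
    have h3 := ds_smul (ws hP) (psep_smul hP) k (k⁻¹ • p) (μ • μ • k⁻¹ • p)
    rw [smul_inv_smul] at h3
    have e : (k * μ * k⁻¹) • (k * μ * k⁻¹) • p = k • μ • μ • k⁻¹ • p := by
      simp only [smul_smul]; congr 1; group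
    rw [e, h3]
    exact h2
  · intro y hy z hz hyz w w' hww' h1 h2 h3 h4
    obtain ⟨k, rfl⟩ := hrep y hy
    obtain ⟨j, rfl⟩ := hrep z hz
    have i1 := cross_atInf hc hP k w ⟨x, hx⟩ h1
    have i2 := cross_atInf hc hP k w' ⟨x, hx⟩ h2
    have i3 := cross_atInf hc hP j w ⟨x, hx⟩ h3
    have i4 := cross_atInf hc hP j w' ⟨x, hx⟩ h4
    have e : ∀ v : P, act (ρ (j⁻¹ * k)) '' (act (ρ k⁻¹) '' v.1) = act (ρ j⁻¹) '' v.1 := by
      intro v
      rw [Set.image_image]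
      congr 1
      ext y
      rw [← act_mul, ← map_mul]; simp
    have hd : Disjoint (act (ρ k⁻¹) '' w.1) (act (ρ k⁻¹) '' w'.1) := by
      apply hP.disj _ (hP.inv _ _ w.2) _ (hP.inv _ _ w'.2)
      intro h
      apply hww'
      have : k⁻¹ • w = k⁻¹ • w' := Subtype.ext h
      exact MulAction.injective _ this
    have i5 := inf_same hd i1 i2 (ρ (j⁻¹ * k)) (by rw [e]; exact i3) (by rw [e]; exact i4)
    exact fix_ne hc hyz i5
  · rcases hD with hD | ⟨hD, hnt⟩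
    · exact Or.inl hD
    · refine Or.inr ⟨hD, ?_⟩
      intro x1 hx1 x2 hx2 x3 hx3 h12 h23 h13 w1 w2 w3 hw12 hw23 hw13 c1 c2 c3 c4 c5 c6
      obtain ⟨a, rfl⟩ := hrep x1 hx1
      obtain ⟨b, rfl⟩ := hrep x2 hx2
      obtain ⟨c, rfl⟩ := hrep x3 hx3
      apply hnt
      refine ⟨w1.1, w1.2, w2.1, w2.2, w3.1, w3.2, fun h => hw12 (Subtype.ext h),
        fun h => hw23 (Subtype.ext h), fun h => hw13 (Subtype.ext h), a, b, c,
        cross_atInf hc hP a w1 ⟨x, hx⟩ c1, cross_atInf hc hP a w2 ⟨x, hx⟩ c2,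
        cross_atInf hc hP b w2 ⟨x, hx⟩ c3, cross_atInf hc hP b w3 ⟨x, hx⟩ c4,
        cross_atInf hc hP c w3 ⟨x, hx⟩ c5, cross_atInf hc hP c w1 ⟨x, hx⟩ c6,
        fix_ne hc h12.symm, fix_ne hc h23.symm, fix_ne hc h13.symm⟩

end SXG
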