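import Pool.Agent.SXG.Del

/-! Project SXG, module SXG-Mid: if the projection of `b` to the axis of `x` is strictly between the
projections of `a` and `c`, then the centre `o` of the tripod `a, b, c` is on the axis, and so are
the neighbours of `o` in the directions of `a` and `c`.

Let `C = cht x`, `i, j, k` the indices of `a, b, c`, `i < j < k` (or `i > j > k`).  `p := C j`:
`Btw d a p b` (`btw_proj` for `a, b`), `Btw d b p c`, `Btw d a p c`.  The centre of a tripod is unique:
`o = p`, because `d a o` and `d a p` are both equal to `(d a b + d a c - d b c) / 2` (add the three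
`Btw` equations), and `btw_uniq` in `[a, b]`.  So `o = C j ∈ Ax`.  If `d o e = 1`, `Btw d a e o`: the
vertex `C (j - 1)` (resp. `C (j+1)` in the other orientation) is also between `a` and `o = C j`
(`d a (C (j-1)) = d a (C i) + |j - 1 - i|` etc.) at distance one from `o`, so `e` is equal to it by
`btw_uniq` (in `[o, a]`).  The same for `c`. -/

namespace SXG

open SXP

variable {V G : Type*} [Group G] [MulAction G V] {d : V → V → ℕ} {R : Set G}

private theorem mid_ne (hC : CG d R) (x : R) {a : V} {j : ℤ} (hne : ix hC x a ≠ j) :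
    a ≠ cht hC x j := by
  intro h
  have h1 := ix_spec hC x a j
  have h2 : d a (cht hC x j) = 0 := (hC.tm.zero _ _).2 h
  have h3 : 0 < |j - ix hC x a| := abs_pos.mpr (sub_ne_zero.mpr (Ne.symm hne))
  rw [h2] at h1
  push_cast at h1
  omega

private theorem mid_nbr (hC : CG d R) (x : R) {a e : V} {j : ℤ} (hne : ix hC x a ≠ j)
    (he : d (cht hC x j) e = 1) (hb : Btw d a e (cht hC x j)) : e ∈ Ax d x.1 := by
  have hL := (cht_spec hC x).line
  obtain ⟨s, hs, hs1⟩ : ∃ s : ℤ, |s| = 1 ∧ |j + s - ix hC x a| = |j - ix hC x a| - 1 := by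
    rcases lt_or_gt_of_ne hne with h | h
    · refine ⟨-1, by norm_num, ?_⟩
      rw [abs_of_nonneg (by omega), abs_of_nonneg (by omega)]
      ring
    · refine ⟨1, by norm_num, ?_⟩
      rw [abs_of_nonpos (by omega), abs_of_nonpos (by omega)]
      ring
  have h1 := ix_spec hC x a j
  have h2 := ix_spec hC x a (j + s)
  have h3 := hL (j + s) j
  rw [show j + s - j = s by ring, hs] at h3
  have hq : Btw d a (cht hC x (j + s)) (cht hC x j) := by
    unfold SXP.Btw
    omega
  have h4 := hC.tm.symm (cht hC x j) e
  have h5 : e = cht hC x (j + s) := by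
    refine btw_uniq hC.tm hb hq ?_
    unfold SXP.Btw at hb
    omega
  exact ((cht_spec hC x).rng e).2 ⟨_, h5⟩

theorem mid (hC : CG d R) (x : R) {a b c o : V}
    (h : (0 < del hC x a b ∧ 0 < del hC x b c) ∨ (del hC x a b < 0 ∧ del hC x b c < 0))
    (h1 : Btw d a o b) (h2 : Btw d b o c) (h3 : Btw d a o c) :
    o ∈ Ax d x.1 ∧ o = cht hC x (ix hC x b) ∧ a ≠ o ∧ c ≠ o ∧
      (∀ e, d o e = 1 → Btw d a e o → e ∈ Ax d x.1) ∧
      ∀ e, d o e = 1 → Btw d c e o → e ∈ Ax d x.1 := by
  have hij : ix hC x a ≠ ix hC x b := by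
    unfold del at h
    omega
  have hjk : ix hC x c ≠ ix hC x b := by
    unfold del at h
    omega
  have hik : ix hC x a ≠ ix hC x c := by
    unfold del at h
    omega
  have p1 : Btw d a (cht hC x (ix hC x b)) b :=
    btw_proj hC x hij (min_le_right _ _) (le_max_right _ _)
  have p2 : Btw d b (cht hC x (ix hC x b)) c :=
    btw_proj hC x (Ne.symm hjk) (min_le_left _ _) (le_max_left _ _)
  have p3 : Btw d a (cht hC x (ix hC x b)) c := by
    refine btw_proj hC x hik ?_ ?_
    · unfold del at h
      rcases h with h | h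
      · exact (min_le_left _ _).trans (by omega)
      · exact (min_le_right _ _).trans (by omega)
    · unfold del at h
      rcases h with h | h
      · exact le_trans (by omega) (le_max_right _ _)
      · exact le_trans (by omega) (le_max_left _ _)
  have ho : o = cht hC x (ix hC x b) := by
    refine btw_uniq hC.tm h1 p1 ?_
    have s1 := hC.tm.symm o b
    have s2 := hC.tm.symm (cht hC x (ix hC x b)) b
    unfold SXP.Btw at h1 h2 h3 p1 p2 p3
    omega
  subst ho
  exact ⟨((cht_spec hC x).rng _).2 ⟨_, rfl⟩, rfl, mid_ne hC x hij, mid_ne hC x hjk,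
    fun e he hb => mid_nbr hC x hij he hb, fun e he hb => mid_nbr hC x hjk he hb⟩

end SXG
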