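import Pool.Agent.SXG.Tri
import Pool.Agent.SXG.Fin

/-! Project SXG, module SXG-Sum: `cc` is antisymmetric, invariant and almost additive.

* `cc_neg`: `ff_neg`, `del_neg`, `finsum_neg_distrib`.
* `cc_smul`: the map `x ↦ ⟨g x g⁻¹, _⟩` is a bijection of `R` (inverse: conjugation by `g⁻¹`);
  `del_conj`; `finsum_comp_equiv` or `finsum_eq_of_bijective`.
* `cc_defect`: `cc a b + cc b c - cc a c = ∑ᶠ x, (ff (del x a b) + ff (del x b c) - ff (del x a c))`
  (`finsum_add_distrib`, `finsum_sub_distrib` with `fin_supp`).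
* `cc_tri`: each summand of `cc_defect` is `≥ -1` (`ff_add_abs`, `del_add`) and vanishes outside the set
  `T` of `tri3` (`ff_add_zero`), so the sum is `≥ - ncard T ≥ -D`: write it as a sum over
  `(tri3 hC a b c).1.toFinset` (`finsum_eq_sum_of_support_subset`), `Finset.sum_le_sum` /
  `Finset.card_nsmul_le_sum`, `Set.ncard_eq_toFinset_card`. -/

namespace SXG

open SXP

variable {V G : Type*} [Group G] [MulAction G V] {d : V → V → ℕ} {R : Set G}

theorem cc_neg (hC : CG d R) (u v : V) : cc hC v u = -cc hC u v := by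
  unfold cc
  rw [← finsum_neg_distrib]
  refine finsum_congr fun x => ?_
  rw [del_neg, ff_neg]

private def cj (hC : CG d R) (g : G) : R ≃ R where
  toFun x := ⟨g * x.1 * g⁻¹, hC.conj g x.1 x.2⟩
  invFun x := ⟨g⁻¹ * x.1 * g⁻¹⁻¹, hC.conj g⁻¹ x.1 x.2⟩
  left_inv x := by
    refine Subtype.ext ?_
    show g⁻¹ * (g * x.1 * g⁻¹) * g⁻¹⁻¹ = x.1
    group
  right_inv x := by
    refine Subtype.ext ?_
    show g * (g⁻¹ * x.1 * g⁻¹⁻¹) * g⁻¹ = x.1
    group

theorem cc_smul (hC : CG d R) (g : G) (u v : V) : cc hC (g • u) (g • v) = cc hC u v := by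
  unfold cc
  rw [← finsum_comp_equiv (cj hC g)]
  refine finsum_congr fun x => ?_
  have h := del_conj hC x g u v
  show ff (del hC ⟨g * x.1 * g⁻¹, hC.conj g x.1 x.2⟩ (g • u) (g • v)) = _
  rw [h]

theorem cc_defect (hC : CG d R) (a b c : V) : cc hC a b + cc hC b c - cc hC a c =
    ∑ᶠ x : R, (ff (del hC x a b) + ff (del hC x b c) - ff (del hC x a c)) := by
  have h1 := fin_supp hC a b
  have h2 := fin_supp hC b c
  have h3 := fin_supp hC a c
  have h4 : (Function.support fun x : R => ff (del hC x a b) + ff (del hC x b c)).Finite :=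
    (h1.union h2).subset (Function.support_add _ _)
  rw [finsum_sub_distrib h4 h3, finsum_add_distrib h1 h2]
  rfl

theorem cc_tri (hC : CG d R) {D : ℕ} (hD : D = 3 ∨ (D = 2 ∧ SXQ.NoTri d R)) (a b c : V) :
    cc hC a c ≤ cc hC a b + cc hC b c + D := by
  have hT := (tri3 hC a b c).1
  have hD2 : {x : R | del hC x a b ≠ 0 ∧ del hC x b c ≠ 0 ∧ del hC x a c ≠ 0}.ncard ≤ D := by
    rcases hD with h | ⟨h, h'⟩
    · rw [h]
      exact (tri3 hC a b c).2
    · rw [h]
      exact tri2 hC h' a b c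
  rw [Set.ncard_eq_toFinset_card _ hT] at hD2
  have hadd : ∀ x : R, del hC x a c = del hC x a b + del hC x b c := fun x =>
    (del_add hC x a b c).symm
  have hs : Function.support (fun x : R => ff (del hC x a b) + ff (del hC x b c) -
      ff (del hC x a c)) ⊆ hT.toFinset := by
    intro x hx
    rw [Set.Finite.coe_toFinset]
    rw [Function.mem_support] at hx
    by_contra hn
    refine hx ?_
    rw [hadd x]
    refine ff_add_zero ?_
    rw [Set.mem_ofPred_eq, hadd x] at hn
    by_contra h0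
    exact hn ⟨fun h => h0 (Or.inl h), fun h => h0 (Or.inr (Or.inl h)),
      fun h => h0 (Or.inr (Or.inr h))⟩
  have h1 : -(D : ℤ) ≤ cc hC a b + cc hC b c - cc hC a c := by
    rw [cc_defect hC a b c, finsum_eq_sum_of_support_subset _ hs]
    have h2 : ∑ x ∈ hT.toFinset, (-1 : ℤ) ≤
        ∑ x ∈ hT.toFinset, (ff (del hC x a b) + ff (del hC x b c) - ff (del hC x a c)) := by
      refine Finset.sum_le_sum fun x _ => ?_
      rw [hadd x]
      exact (abs_le.1 (ff_add_abs (del hC x a b) (del hC x b c))).1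
    rw [Finset.sum_const] at h2
    have h3 : ((hT.toFinset.card : ℕ) : ℤ) ≤ D := by exact_mod_cast hD2
    simp only [nsmul_eq_mul] at h2
    linarith
  linarith

end SXG
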