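import Pool.Agent.SXG.Mid
import Pool.Agent.SXG.FF

/-! Project SXG, module SXG-Tri: at most three axes (two if there are no triangles) have pairwise
different projections of three points `a, b, c`.

Let `T = {x : R | del x a b ≠ 0 ∧ del x b c ≠ 0 ∧ del x a c ≠ 0}`, `o` the `median` of `a, b, c`.
For `x ∈ T` exactly one of the three projections is strictly between the other two
(`del_add`, `omega`): say `x` is of type `b` if `del x a b`, `del x b c` have the same sign, of type `a` if
`del x b a`, `del x a c` have the same sign, of type `c` if `del x a c`, `del x c b` have the same sign.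
If `x` and `y` are of the same type, e.g. `b`: by `mid` `a ≠ o`, `c ≠ o`; choose `e` with `d o e = 1`,
`Btw d a e o` and `e'` with `d o e' = 1`, `Btw d c e' o` (`pt`, symmetric `Btw`); `e, e' ∈ Ax x ∩ Ax y`,
`d e e' = 2` (because `Btw d a o c`: `d a c = d a e + 1 + 1 + d e' c` and the triangle inequality), so
`x = y` by `hC.ov`.  So `T` has at most three elements: e.g. `T ⊆ {x₁} ∪ {x₂} ∪ {x₃}`: each type class is a
subsingleton; `Set.ncard_union_le`, `Set.Subsingleton.ncard_le_one`/`Set.ncard_le_one`.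
`tri2`: if there are elements of all three types (`x` of type `b`, `y` of type `a`, `z` of type `c`;
they are different, as the types exclude each other), then with the neighbours `e_a, e_b, e_c` of `o`
(`d = 2` pairwise, so different): `e_a, e_c ∈ Ax x`, `e_b, e_c ∈ Ax y`, `e_a, e_b ∈ Ax z`, `o` in all:
contradiction to `SXQ.NoTri`.  So one type is missing and `T` has at most two elements. -/

namespace SXG

open SXP

variable {V G : Type*} [Group G] [MulAction G V] {d : V → V → ℕ} {R : Set G}

/-- the projection of `b` is strictly between the projections of `a` and `c` -/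
private def Ty (hC : CG d R) (x : R) (a b c : V) : Prop :=
  (0 < del hC x a b ∧ 0 < del hC x b c) ∨ (del hC x a b < 0 ∧ del hC x b c < 0)

private theorem btw_comm (h : TM d) {x y z : V} (h1 : Btw d x y z) : Btw d z y x := by
  unfold SXP.Btw at *
  rw [h.symm z y, h.symm y x, h.symm z x]
  omega

private theorem nb (h : TM d) {p o : V} (hne : p ≠ o) : ∃ e, d o e = 1 ∧ Btw d p e o := by
  have h0 : d o p ≠ 0 := fun h1 => hne ((h.zero o p).1 h1).symm
  obtain ⟨e, h1, h2⟩ := pt h o p 1 (by omega)
  exact ⟨e, h1, btw_comm h h2⟩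

private theorem two (h : TM d) {p o q e e' : V} (h1 : Btw d p o q) (he : d o e = 1)
    (hpe : Btw d p e o) (he' : d o e' = 1) (hqe : Btw d q e' o) : d e e' = 2 := by
  unfold SXP.Btw at *
  have g1 := h.tri e o e'
  have g2 := h.tri p e q
  have g3 := h.tri e e' q
  have g4 := h.symm e o
  have g5 := h.symm e' o
  have g6 := h.symm e' q
  have g7 := h.symm q o
  omega

private theorem ty_uniq (hC : CG d R) {a b c o : V} (h1 : Btw d a o b) (h2 : Btw d b o c)
    (h3 : Btw d a o c) {x y : R} (hx : Ty hC x a b c) (hy : Ty hC y a b c) : x = y := by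
  obtain ⟨-, -, ha, hc, hx1, hx2⟩ := mid hC x hx h1 h2 h3
  obtain ⟨-, -, -, -, hy1, hy2⟩ := mid hC y hy h1 h2 h3
  obtain ⟨e, he, hae⟩ := nb hC.tm ha
  obtain ⟨e', he', hce⟩ := nb hC.tm hc
  by_contra hne
  have hne' : x.1 ≠ y.1 := fun h => hne (Subtype.ext h)
  have h5 := hC.ov x.1 x.2 y.1 y.2 hne' e e' (hx1 e he hae) (hy1 e he hae) (hx2 e' he' hce)
    (hy2 e' he' hce)
  have h6 := two hC.tm h3 he hae he' hce
  omega

private theorem ty_cases (hC : CG d R) {a b c : V} {x : R}
    (h : del hC x a b ≠ 0 ∧ del hC x b c ≠ 0 ∧ del hC x a c ≠ 0) :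
    Ty hC x a b c ∨ Ty hC x b a c ∨ Ty hC x a c b := by
  have h1 := del_add hC x a b c
  have h2 := del_neg hC x a b
  have h3 := del_neg hC x b c
  unfold Ty
  omega

private theorem ty_ne1 (hC : CG d R) {a b c : V} {x : R} (h : Ty hC x a b c)
    (h' : Ty hC x b a c) : False := by
  have h1 := del_add hC x a b c
  have h2 := del_neg hC x a b
  unfold Ty at *
  omega

private theorem ty_ne2 (hC : CG d R) {a b c : V} {x : R} (h : Ty hC x a b c)
    (h' : Ty hC x a c b) : False := by
  have h1 := del_add hC x a b c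
  have h3 := del_neg hC x b c
  unfold Ty at *
  omega

private theorem ty_ne3 (hC : CG d R) {a b c : V} {x : R} (h : Ty hC x b a c)
    (h' : Ty hC x a c b) : False := by
  have h1 := del_add hC x a b c
  have h2 := del_neg hC x a b
  have h3 := del_neg hC x b c
  unfold Ty at *
  omega

private theorem sub_sub (hC : CG d R) {a b c o : V} (h1 : Btw d a o b) (h2 : Btw d b o c)
    (h3 : Btw d a o c) : ({x : R | Ty hC x a b c} : Set R).Subsingleton :=
  fun _ hx _ hy => ty_uniq hC h1 h2 h3 hx hy

omit [Group G] in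
private theorem nc_le {s : Set R} (hs : s.Subsingleton) : s.ncard ≤ 1 :=
  (Set.ncard_le_one hs.finite).2 fun _ ha _ hb => hs ha hb

theorem tri3 (hC : CG d R) (a b c : V) :
    {x : R | del hC x a b ≠ 0 ∧ del hC x b c ≠ 0 ∧ del hC x a c ≠ 0}.Finite ∧
    {x : R | del hC x a b ≠ 0 ∧ del hC x b c ≠ 0 ∧ del hC x a c ≠ 0}.ncard ≤ 3 := by
  obtain ⟨o, h1, h2, h3⟩ := median hC.tm a b c
  have sA := sub_sub hC h1 h2 h3
  have sB := sub_sub hC (btw_comm hC.tm h1) h3 h2
  have sC := sub_sub hC h3 (btw_comm hC.tm h2) h1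
  have hsub : {x : R | del hC x a b ≠ 0 ∧ del hC x b c ≠ 0 ∧ del hC x a c ≠ 0} ⊆
      {x : R | Ty hC x a b c} ∪ ({x : R | Ty hC x b a c} ∪ {x : R | Ty hC x a c b}) :=
    fun x hx => ty_cases hC hx
  have hfin : ({x : R | Ty hC x a b c} ∪
      ({x : R | Ty hC x b a c} ∪ {x : R | Ty hC x a c b}) : Set R).Finite :=
    sA.finite.union (sB.finite.union sC.finite)
  refine ⟨hfin.subset hsub, (Set.ncard_le_ncard hsub hfin).trans ?_⟩
  have g1 := Set.ncard_union_le {x : R | Ty hC x a b c}
    ({x : R | Ty hC x b a c} ∪ {x : R | Ty hC x a c b})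
  have g2 := Set.ncard_union_le {x : R | Ty hC x b a c} {x : R | Ty hC x a c b}
  have g3 := nc_le sA
  have g4 := nc_le sB
  have g5 := nc_le sC
  omega

omit [Group G] in
private theorem two_le {s A B : Set R} (hA : A.Subsingleton) (hB : B.Subsingleton)
    (hs : s ⊆ A ∪ B) : s.ncard ≤ 2 := by
  have g1 := Set.ncard_le_ncard hs (hA.finite.union hB.finite)
  have g2 := Set.ncard_union_le A B
  have g3 := nc_le hA
  have g4 := nc_le hB
  omega

theorem tri2 (hC : CG d R) (hnt : SXQ.NoTri d R) (a b c : V) :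
    {x : R | del hC x a b ≠ 0 ∧ del hC x b c ≠ 0 ∧ del hC x a c ≠ 0}.ncard ≤ 2 := by
  obtain ⟨o, h1, h2, h3⟩ := median hC.tm a b c
  have h1' := btw_comm hC.tm h1
  have h2' := btw_comm hC.tm h2
  have sA := sub_sub hC h1 h2 h3
  have sB := sub_sub hC h1' h3 h2
  have sC := sub_sub hC h3 h2' h1
  by_cases hA : ∃ x : R, Ty hC x a b c
  · by_cases hB : ∃ x : R, Ty hC x b a c
    · by_cases hCc : ∃ x : R, Ty hC x a c b
      · exfalso
        obtain ⟨x, hx⟩ := hA
        obtain ⟨y, hy⟩ := hB
        obtain ⟨z, hz⟩ := hCc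
        obtain ⟨xo, -, xa, xc, x1, x2⟩ := mid hC x hx h1 h2 h3
        obtain ⟨yo, -, yb, -, y1, y2⟩ := mid hC y hy h1' h3 h2
        obtain ⟨zo, -, -, -, z1, z2⟩ := mid hC z hz h3 h2' h1
        obtain ⟨ea, ha1, ha2⟩ := nb hC.tm xa
        obtain ⟨ec, hc1, hc2⟩ := nb hC.tm xc
        obtain ⟨eb, hb1, hb2⟩ := nb hC.tm yb
        have dac := two hC.tm h3 ha1 ha2 hc1 hc2
        have dab := two hC.tm h1 ha1 ha2 hb1 hb2
        have dcb := two hC.tm h2' hc1 hc2 hb1 hb2
        have nac : ea ≠ ec := fun h => by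
          rw [(hC.tm.zero ea ec).2 h] at dac
          omega
        have nab : ea ≠ eb := fun h => by
          rw [(hC.tm.zero ea eb).2 h] at dab
          omega
        have ncb : ec ≠ eb := fun h => by
          rw [(hC.tm.zero ec eb).2 h] at dcb
          omega
        have nxy : x.1 ≠ y.1 := fun h => by
          have h' : x = y := Subtype.ext h
          subst h'
          exact ty_ne1 hC hx hy
        have nyz : y.1 ≠ z.1 := fun h => by
          have h' : y = z := Subtype.ext h
          subst h'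
          exact ty_ne3 hC hy hz
        have nxz : x.1 ≠ z.1 := fun h => by
          have h' : x = z := Subtype.ext h
          subst h'
          exact ty_ne2 hC hx hz
        exact hnt x.1 x.2 y.1 y.2 z.1 z.2 nxy nyz nxz o ea ec eb ha1 hc1 hb1 nac ncb nab xo yo zo
          (x1 ea ha1 ha2) (x2 ec hc1 hc2) (y2 ec hc1 hc2) (y1 eb hb1 hb2) (z2 eb hb1 hb2)
          (z1 ea ha1 ha2)
      · refine two_le sA sB fun x hx => ?_
        rcases ty_cases hC hx with h | h | h
        · exact Or.inl h
        · exact Or.inr h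
        · exact absurd ⟨x, h⟩ hCc
    · refine two_le sA sC fun x hx => ?_
      rcases ty_cases hC hx with h | h | h
      · exact Or.inl h
      · exact absurd ⟨x, h⟩ hB
      · exact Or.inr h
  · refine two_le sB sC fun x hx => ?_
    rcases ty_cases hC hx with h | h | h
    · exact absurd ⟨x, h⟩ hA
    · exact Or.inl h
    · exact Or.inr h

end SXG
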